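import Pool.Agent.PLS.E12

set_option autoImplicit false

/-! # Random interlacements on `ℤ^d`, `d ≥ 3`: the crossing probabilities of the vacant set at the
critical level -/

open Finset Filter Topology MeasureTheory RInt

namespace Pool.Agent.Results.MP_b849df_pr.CriticalCrossings

/-- The event that the box `[-n, n]^d` is joined in the vacant set to the sup-distance `3n`. -/
def Cross (d n : ℕ) : Set (Set (Fin d → ℤ)) :=
  {I | ∃ x y : Fin d → ℤ, (∀ i, |x i| ≤ n) ∧ (∃ i, (3 * n : ℤ) ≤ |y i|) ∧ x ∉ I ∧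
    Relation.ReflTransGen (VAdj Iᶜ) x y}

/-- The crossing probabilities at the level `u` are bounded away from `0`. -/
def CrossPos {d : ℕ} (μ : ℝ → Measure (Set (Fin d → ℤ))) (u : ℝ) : Prop :=
  ∃ δ : ℝ, 0 < δ ∧ ∀ n : ℕ, 1 ≤ n → δ ≤ (μ u).real (Cross d n)

/-- The crossing probabilities at the level `u` decay stretched exponentially. -/
def CrossDecay {d : ℕ} (μ : ℝ → Measure (Set (Fin d → ℤ))) (u : ℝ) : Prop :=
  ∃ C c α : ℝ, 0 < C ∧ 0 < c ∧ 0 < α ∧ ∀ n : ℕ, 1 ≤ n →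
    (μ u).real (Cross d n) ≤ C * Real.exp (-(c * (n : ℝ) ^ α))

theorem cross_eq (d n : ℕ) : Cross d n = PLS.Xc d 0 n := by
  ext I
  constructor
  · rintro ⟨x, y, hx, ⟨i, hi⟩, h1, h2⟩
    exact ⟨x, y, fun i => by simpa using hx i, ⟨i, by simpa using hi⟩, h1, h2⟩
  · rintro ⟨x, y, hx, ⟨i, hi⟩, h1, h2⟩
    exact ⟨x, y, fun i => by simpa using hx i, ⟨i, by simpa using hi⟩, h1, h2⟩

theorem not_both {d : ℕ} (μ : ℝ → Measure (Set (Fin d → ℤ))) (u : ℝ) :
    ¬ (CrossPos μ u ∧ CrossDecay μ u) := by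
  rintro ⟨⟨δ, hδ, h⟩, C, c, α, hC, hc, hα, h'⟩
  have hlim : Tendsto (fun n : ℕ => C * Real.exp (-(c * (n : ℝ) ^ α))) atTop (𝓝 (C * 0)) := by
    refine Tendsto.const_mul C (Real.tendsto_exp_neg_atTop_nhds_zero.comp ?_)
    exact (tendsto_rpow_atTop hα).comp tendsto_natCast_atTop_atTop |>.const_mul_atTop hc
  rw [mul_zero] at hlim
  obtain ⟨n, hn1, hn2⟩ := ((hlim.eventually (gt_mem_nhds hδ)).and (eventually_ge_atTop 1)).exists
  have := (h n hn2).trans (h' n hn2)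
  linarith

/-- **Main theorem.** Let `μ u`, `u > 0`, be the laws of random interlacements on `ℤ^d`, `d ≥ 3`.
At every level `u > 0` the crossing probabilities of the vacant set are bounded away from `0` or
they decay stretched exponentially (not both), and the set of the levels of the second kind is
open. If `θ > 0` on `(0, u)`, in particular if `u` is the critical level, then at `u` the
crossing probabilities are bounded away from `0`, and the one arm probabilities are at least a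
constant times `n^(1-d)`. -/
theorem result (d : ℕ) (hd : 3 ≤ d) (μ : ℝ → Measure (Set (Fin d → ℤ)))
    (hμ : ∀ u : ℝ, 0 < u → IsInterlacement u (μ u)) :
    (∀ u : ℝ, 0 < u → (CrossPos μ u ∨ CrossDecay μ u) ∧ ¬ (CrossPos μ u ∧ CrossDecay μ u)) ∧
    IsOpen {u : ℝ | 0 < u ∧ CrossDecay μ u} ∧
    ∀ u : ℝ, 0 < u → (∀ v : ℝ, 0 < v → v < u → 0 < theta μ v) → CrossPos μ u ∧
      ∃ δ : ℝ, 0 < δ ∧ ∀ n : ℕ, 1 ≤ n → δ / (n : ℝ) ^ (d - 1) ≤ (μ u).real (Arm n) := by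
  obtain ⟨e1, e2, e3⟩ := PLS.pE11 d hd μ hμ
  have hpos : ∀ u, CrossPos μ u ↔
      ∃ δ : ℝ, 0 < δ ∧ ∀ n : ℕ, 1 ≤ n → δ ≤ (μ u).real (PLS.Xc d 0 n) := by
    intro u
    unfold CrossPos
    simp only [cross_eq]
  have hdec : ∀ u, CrossDecay μ u ↔ ∃ C c α : ℝ, 0 < C ∧ 0 < c ∧ 0 < α ∧ ∀ n : ℕ, 1 ≤ n →
      (μ u).real (PLS.Xc d 0 n) ≤ C * Real.exp (-(c * (n : ℝ) ^ α)) := by
    intro u
    unfold CrossDecay
    simp only [cross_eq]
  refine ⟨?_, ?_, ?_⟩
  · intro u hu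
    refine ⟨?_, not_both μ u⟩
    rw [hpos, hdec]
    exact e1 u hu
  · rw [Metric.isOpen_iff]
    rintro u ⟨hu, hdu⟩
    have hn : ¬ CrossPos μ u := fun h => not_both μ u ⟨h, hdu⟩
    rw [hpos] at hn
    obtain ⟨ε, hε, hεu, h⟩ := e2 u hu hn
    refine ⟨ε, hε, fun v hv => ?_⟩
    rw [Metric.mem_ball, Real.dist_eq] at hv
    have hv0 : 0 < v := by
      have := (abs_lt.1 hv).1
      linarith
    refine ⟨hv0, ?_⟩
    rw [hdec]
    rcases e1 v hv0 with h3 | h3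
    · exact absurd h3 (h v hv)
    · exact h3
  · intro u hu hv
    obtain ⟨δ, hδ, h⟩ := e3 u hu hv
    refine ⟨(hpos u).2 ⟨δ, hδ, fun n hn => (h n hn).1⟩, δ, hδ, fun n hn => (h n hn).2⟩

end Pool.Agent.Results.MP_b849df_pr.CriticalCrossings
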