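import Pool.Agent.PLS.E12

set_option autoImplicit false

/-! # Random interlacements on `ℤ^d`, `d ≥ 3`: decoupling of monotone events at one level -/

open Finset Filter Topology MeasureTheory RInt

namespace Pool.Agent.Results.MP_b849df_pr.Decoupling

/-- The box `z + [-n, n]^d`. -/
noncomputable def boxAt {d : ℕ} (z : Fin d → ℤ) (n : ℕ) : Finset (Fin d → ℤ) :=
  (box d n).image fun x => x + z

/-- Increasing events. -/
def Increasing {d : ℕ} (A : Set (Set (Fin d → ℤ))) : Prop := ∀ I ∈ A, ∀ J, I ⊆ J → J ∈ A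

/-- Decreasing events. -/
def Decreasing {d : ℕ} (A : Set (Set (Fin d → ℤ))) : Prop := ∀ I ∈ A, ∀ J, J ⊆ I → J ∈ A

/-- **Main theorem.** Decoupling without sprinkling. For every `d ≥ 3` there are `M` and `a > 0`
such that for the laws `μ u`, `u > 0`, of random interlacements on `ℤ^d`, all `n ≥ 1`, boxes of
radius `3n` with centres at sup-distance at least `M n`, events `A`, `A'` which depend only on the
configuration in the first and in the second box, both increasing or both decreasing, and all `L`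
with `1 ≤ L ≤ a u n^(d-2)`: `P^u(A), P^u(A') ≤ exp(-L)` implies `P^u(A ∩ A') ≤ 10 exp(-3L/2)`. -/
theorem result (d : ℕ) (hd : 3 ≤ d) : ∃ (M : ℕ) (a : ℝ), 0 < a ∧
    ∀ μ : ℝ → Measure (Set (Fin d → ℤ)), (∀ u : ℝ, 0 < u → IsInterlacement u (μ u)) →
    ∀ u : ℝ, 0 < u → ∀ n : ℕ, 1 ≤ n → ∀ z z' : Fin d → ℤ, (∃ i, (M * n : ℤ) ≤ |z i - z' i|) →
    ∀ A A' : Set (Set (Fin d → ℤ)), Local (boxAt z (3 * n)) A → Local (boxAt z' (3 * n)) A' →
    (Increasing A ∧ Increasing A' ∨ Decreasing A ∧ Decreasing A') →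
    ∀ L : ℝ, 1 ≤ L → L ≤ a * u * (n : ℝ) ^ (d - 2) → (μ u).real A ≤ Real.exp (-L) →
      (μ u).real A' ≤ Real.exp (-L) → (μ u).real (A ∩ A') ≤ 10 * Real.exp (-(3 * L / 2)) := by
  obtain ⟨M1, a1, ha1, h1⟩ := PLS.pE13u d hd
  obtain ⟨M2, a2, ha2, h2⟩ := PLS.pE13d d hd
  refine ⟨max M1 M2, min a1 a2, lt_min ha1 ha2, ?_⟩
  intro μ hμ u hu n hn z z' hz A A' hA hA' hAA L hL hLa hp hp'
  have hun : 0 ≤ u * (n : ℝ) ^ (d - 2) := by positivity
  rcases hAA with ⟨hU, hU'⟩ | ⟨hD, hD'⟩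
  · refine h1 μ hμ u hu n hn z z' ?_ A A' hA hA' hU hU' L hL ?_ hp hp'
    · obtain ⟨i, hi⟩ := hz
      refine ⟨i, le_trans ?_ hi⟩
      have : (M1 : ℤ) ≤ ((max M1 M2 : ℕ) : ℤ) := by exact_mod_cast le_max_left M1 M2
      exact mul_le_mul_of_nonneg_right this (by positivity)
    · have : min a1 a2 * (u * (n : ℝ) ^ (d - 2)) ≤ a1 * (u * (n : ℝ) ^ (d - 2)) :=
        mul_le_mul_of_nonneg_right (min_le_left _ _) hun
      linarith
  · refine h2 μ hμ u hu n hn z z' ?_ A A' hA hA' hD hD' L hL ?_ hp hp'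
    · obtain ⟨i, hi⟩ := hz
      refine ⟨i, le_trans ?_ hi⟩
      have : (M2 : ℤ) ≤ ((max M1 M2 : ℕ) : ℤ) := by exact_mod_cast le_max_right M1 M2
      exact mul_le_mul_of_nonneg_right this (by positivity)
    · have : min a1 a2 * (u * (n : ℝ) ^ (d - 2)) ≤ a2 * (u * (n : ℝ) ^ (d - 2)) :=
        mul_le_mul_of_nonneg_right (min_le_right _ _) hun
      linarith

end Pool.Agent.Results.MP_b849df_pr.Decoupling
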