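import Pool.Agent.Helper55.RI.Arm
import Pool.Agent.Helper55.RI.Cap

set_option autoImplicit false

/-! # Random interlacements: sensitivity to the level of events in finite windows, and a near
critical criterion for the continuity of the percolation function of the vacant set -/

open Finset Filter Topology MeasureTheory RInt

namespace Pool.Agent.Results.MP_b849df_pr.NearCritical

variable {d : ℕ}

theorem fam (μ : ℝ → Measure (Set (Fin d → ℤ))) (hμ : ∀ u, 0 < u → IsInterlacement u (μ u)) :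
    VoidFam cap μ :=
  ⟨fun u hu => (hμ u hu).prob, fun u hu => (hμ u hu).void⟩

theorem sqrt_add_sub (u s : ℝ) (hu : 0 < u) (hs : 0 ≤ s) : |√(u + s) - √u| ≤ s / (2 * √u) := by
  have h1 : 0 < √u := Real.sqrt_pos.2 hu
  have h2 : √u ≤ √(u + s) := Real.sqrt_le_sqrt (by linarith)
  rw [abs_of_nonneg (by linarith), le_div_iff₀ (by positivity)]
  have h3 : √u ^ 2 = u := Real.sq_sqrt hu.le
  have h4 : √(u + s) ^ 2 = u + s := Real.sq_sqrt (by linarith)
  nlinarith [sq_nonneg (√(u + s) - √u)]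

/-- the arm probability is locally Lipschitz in the level -/
theorem arm_close (hd : 0 < d) (μ : ℝ → Measure (Set (Fin d → ℤ)))
    (hμ : ∀ u, 0 < u → IsInterlacement u (μ u)) (u v : ℝ) (hu : 0 < u) (hv : 0 < v) (n : ℕ) :
    |(μ u).real (Arm n) - (μ v).real (Arm n)| ≤ √(cap (box d n)) * |√u - √v| :=
  (fam μ hμ).main cap_empty (box d n) (Arm n) (arm_local hd n) u v hu hv

theorem arm_mono (hd : 0 < d) (μ : ℝ → Measure (Set (Fin d → ℤ)))
    (hμ : ∀ u, 0 < u → IsInterlacement u (μ u)) (u v : ℝ) (hu : 0 < u) (huv : u ≤ v) (n : ℕ) :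
    (μ v).real (Arm n) ≤ (μ u).real (Arm n) :=
  (fam μ hμ).mono cap_empty (box d n) (Arm n) (arm_local hd n) (arm_down n) u v hu huv

theorem theta_anti (hd : 0 < d) (μ : ℝ → Measure (Set (Fin d → ℤ)))
    (hμ : ∀ u, 0 < u → IsInterlacement u (μ u)) (u v : ℝ) (hu : 0 < u) (huv : u ≤ v) :
    theta μ v ≤ theta μ u := by
  have hv : 0 < v := hu.trans_le huv
  have := (hμ u hu).prob
  have := (hμ v hv).prob
  exact le_of_tendsto_of_tendsto' (theta_tendsto hd μ v) (theta_tendsto hd μ u)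
    fun n => arm_mono hd μ hμ u v hu huv n

theorem arm_cont (hd : 0 < d) (μ : ℝ → Measure (Set (Fin d → ℤ)))
    (hμ : ∀ u, 0 < u → IsInterlacement u (μ u)) (u : ℝ) (hu : 0 < u) (n : ℕ) :
    Tendsto (fun v => (μ v).real (Arm n)) (𝓝 u) (𝓝 ((μ u).real (Arm n))) := by
  rw [tendsto_iff_dist_tendsto_zero]
  have h1 : Tendsto (fun v => √(cap (box d n)) * |√v - √u|) (𝓝 u) (𝓝 0) := by
    have h2 : Continuous fun v : ℝ => √(cap (box d n)) * |√v - √u| := by fun_prop
    have h3 := h2.tendsto u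
    simpa using h3
  refine squeeze_zero' (Eventually.of_forall fun _ => dist_nonneg) ?_ h1
  filter_upwards [lt_mem_nhds hu] with v hv
  rw [Real.dist_eq]
  exact arm_close hd μ hμ v u hv hu n

/-- left continuity -/
theorem theta_left (hd : 0 < d) (μ : ℝ → Measure (Set (Fin d → ℤ)))
    (hμ : ∀ u, 0 < u → IsInterlacement u (μ u)) (u : ℝ) (hu : 0 < u) :
    Tendsto (theta μ) (𝓝[<] u) (𝓝 (theta μ u)) := by
  have := (hμ u hu).prob
  rw [tendsto_order]
  constructor
  · intro a ha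
    filter_upwards [self_mem_nhdsWithin, nhdsWithin_le_nhds (lt_mem_nhds hu)] with v hv hv0
    exact ha.trans_le (theta_anti hd μ hμ v u hv0 (le_of_lt hv))
  · intro a ha
    obtain ⟨n, hn⟩ := ((theta_tendsto hd μ u).eventually (gt_mem_nhds ha)).exists
    filter_upwards [nhdsWithin_le_nhds ((arm_cont hd μ hμ u hu n).eventually (gt_mem_nhds hn)),
      nhdsWithin_le_nhds (lt_mem_nhds hu)] with v hv hv0
    have := (hμ v hv0).prob
    exact (theta_le μ v n).trans_lt hv

theorem cap_box' (hd : 3 ≤ d) (n : ℕ) (hn : 0 < n) :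
    cap (box d n) ≤ 5 ^ d * (n : ℝ) ^ (d - 2) := by
  refine (cap_box (by omega) n hn).trans ?_
  have hn' : (1 : ℝ) ≤ n := by exact_mod_cast hn
  have h1 : (4 * (n : ℝ) + 1) ^ d ≤ (5 * n) ^ d := pow_le_pow_left₀ (by positivity) (by linarith) d
  have h2 : (5 * (n : ℝ)) ^ d = 5 ^ d * (n : ℝ) ^ (d - 2) * (n : ℝ) ^ 2 := by
    rw [mul_pow, mul_assoc, ← pow_add]
    congr 2
    omega
  rw [div_le_iff₀ (by positivity)]
  have h3 : 0 ≤ 5 ^ d * (n : ℝ) ^ (d - 2) * (n : ℝ) ^ 2 := by positivity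
  linarith

/-- near critical limit -/
theorem near (hd : 3 ≤ d) (μ : ℝ → Measure (Set (Fin d → ℤ)))
    (hμ : ∀ u, 0 < u → IsInterlacement u (μ u)) (u : ℝ) (hu : 0 < u) (N : ℝ → ℕ)
    (hN : Tendsto N (𝓝[>] 0) atTop)
    (hs : Tendsto (fun s => s ^ 2 * (N s : ℝ) ^ (d - 2)) (𝓝[>] 0) (𝓝 0)) :
    Tendsto (fun s => (μ (u + s)).real (Arm (N s))) (𝓝[>] 0) (𝓝 (theta μ u)) := by
  have := (hμ u hu).prob
  have h1 : Tendsto (fun s => (μ u).real (Arm (N s))) (𝓝[>] 0) (𝓝 (theta μ u)) :=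
    (theta_tendsto (by omega) μ u).comp hN
  have h2 : Tendsto (fun s => √(5 ^ d * (s ^ 2 * (N s : ℝ) ^ (d - 2))) * (1 / (2 * √u)))
      (𝓝[>] 0) (𝓝 0) := by
    have h3 := ((hs.const_mul (5 ^ d)).sqrt).mul_const (1 / (2 * √u))
    simpa using h3
  have h4 : Tendsto (fun s => (μ (u + s)).real (Arm (N s)) - (μ u).real (Arm (N s)))
      (𝓝[>] 0) (𝓝 0) := by
    refine squeeze_zero_norm' ?_ h2
    filter_upwards [self_mem_nhdsWithin, hN.eventually_ge_atTop 1] with s hs0 hs1
    have hs0' : (0 : ℝ) < s := hs0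
    rw [Real.norm_eq_abs]
    refine (arm_close (by omega) μ hμ (u + s) u (by linarith) hu (N s)).trans ?_
    have h5 : √(cap (box d (N s))) ≤ √(5 ^ d * (N s : ℝ) ^ (d - 2)) :=
      Real.sqrt_le_sqrt (cap_box' hd (N s) hs1)
    have h6 : √(5 ^ d * (s ^ 2 * (N s : ℝ) ^ (d - 2))) = √(5 ^ d * (N s : ℝ) ^ (d - 2)) * s := by
      have : 5 ^ d * (s ^ 2 * (N s : ℝ) ^ (d - 2)) = (5 ^ d * (N s : ℝ) ^ (d - 2)) * s ^ 2 := by
        ring
      rw [this, Real.sqrt_mul (by positivity), Real.sqrt_sq hs0'.le]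
    rw [h6]
    calc √(cap (box d (N s))) * |√(u + s) - √u|
        ≤ √(5 ^ d * (N s : ℝ) ^ (d - 2)) * (s / (2 * √u)) :=
          mul_le_mul h5 (sqrt_add_sub u s hu hs0'.le) (abs_nonneg _) (Real.sqrt_nonneg _)
      _ = √(5 ^ d * (N s : ℝ) ^ (d - 2)) * s * (1 / (2 * √u)) := by ring
  have h7 := h4.add h1
  simpa using h7

theorem finite_eq (hd : 0 < d) (μ : ℝ → Measure (Set (Fin d → ℤ))) (v : ℝ)
    [IsProbabilityMeasure (μ v)] (n : ℕ) :
    theta μ v = (μ v).real (Arm n) -
      (μ v).real (Arm n ∩ {I : Set (Fin d → ℤ) | (clus Iᶜ).Finite}) := by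
  have hm : MeasurableSet {I : Set (Fin d → ℤ) | (clus Iᶜ).Infinite} := by
    rw [infinite_eq]
    exact MeasurableSet.iInter fun n => local_measurable _ _ (arm_local hd n)
  have h1 := measureReal_inter_add_sdiff (μ := μ v) (s := (Arm n : Set (Set (Fin d → ℤ)))) hm
  have h2 : (Arm n : Set (Set (Fin d → ℤ))) ∩ {I : Set (Fin d → ℤ) | (clus Iᶜ).Infinite} =
      {I : Set (Fin d → ℤ) | (clus Iᶜ).Infinite} := by
    refine Set.inter_eq_right.2 ?_
    rw [infinite_eq]
    exact Set.iInter_subset _ n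
  have h3 : (Arm n : Set (Set (Fin d → ℤ))) \ {I : Set (Fin d → ℤ) | (clus Iᶜ).Infinite} =
      Arm n ∩ {I : Set (Fin d → ℤ) | (clus Iᶜ).Finite} := by
    ext I
    simp only [Set.mem_sdiff, Set.mem_inter_iff, Set.mem_ofPred_eq, Set.not_infinite]
  rw [h2, h3] at h1
  unfold theta
  linarith

theorem right_iff (hd : 3 ≤ d) (μ : ℝ → Measure (Set (Fin d → ℤ)))
    (hμ : ∀ u, 0 < u → IsInterlacement u (μ u)) (u : ℝ) (hu : 0 < u) :
    ContinuousAt (theta μ) u ↔ Tendsto (fun s => theta μ (u + s)) (𝓝[>] 0) (𝓝 (theta μ u)) := by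
  have h1 : Tendsto (fun s : ℝ => u + s) (𝓝[>] 0) (𝓝[>] u) := by
    refine tendsto_nhdsWithin_iff.2 ⟨?_, ?_⟩
    · have : Tendsto (fun s : ℝ => u + s) (𝓝 0) (𝓝 (u + 0)) :=
        (continuous_const.add continuous_id).tendsto 0
      rw [add_zero] at this
      exact this.mono_left nhdsWithin_le_nhds
    · filter_upwards [self_mem_nhdsWithin] with s hs
      have : (0 : ℝ) < s := hs
      simp [this]
  have h2 : Tendsto (fun s : ℝ => s - u) (𝓝[>] u) (𝓝[>] 0) := by
    refine tendsto_nhdsWithin_iff.2 ⟨?_, ?_⟩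
    · have : Tendsto (fun s : ℝ => s - u) (𝓝 u) (𝓝 (u - u)) :=
        (continuous_id.sub continuous_const).tendsto u
      rw [sub_self] at this
      exact this.mono_left nhdsWithin_le_nhds
    · filter_upwards [self_mem_nhdsWithin] with s hs
      have : u < s := hs
      simp [this]
  rw [continuousAt_iff_continuous_left'_right']
  constructor
  · rintro ⟨_, h⟩
    have h' : Tendsto (theta μ) (𝓝[>] u) (𝓝 (theta μ u)) := h
    exact h'.comp h1
  · intro h
    refine ⟨theta_left (by omega) μ hμ u hu, ?_⟩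
    have h3 := h.comp h2
    refine h3.congr fun s => ?_
    simp

/-- **Main theorem.** Let `μ u`, `u > 0`, be the laws of random interlacements on `ℤ^d`, `d ≥ 3`,
and let `N(s) → ∞` and `s² N(s)^(d-2) → 0` as `s ↓ 0`. Then at every level `u > 0`
(1) the probability at the level `u + s` that the origin is connected to sup-distance `N(s)` in
the vacant set converges to `θ(u)`;
(2) `θ` is continuous at `u` iff the probability at the level `u + s` that the cluster of the
origin is finite and reaches sup-distance `N(s)` tends to `0`;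
(3) if `θ` vanishes on `(u, ∞)` (as at `u = u*`), then `θ` is continuous at `u` iff `θ(u) = 0`,
iff the probability at the level `u + s` of the connection to sup-distance `N(s)` tends to
`0`. -/
theorem result (d : ℕ) (hd : 3 ≤ d) (μ : ℝ → Measure (Set (Fin d → ℤ)))
    (hμ : ∀ u, 0 < u → IsInterlacement u (μ u)) (u : ℝ) (hu : 0 < u) (N : ℝ → ℕ)
    (hN : Tendsto N (𝓝[>] 0) atTop)
    (hs : Tendsto (fun s => s ^ 2 * (N s : ℝ) ^ (d - 2)) (𝓝[>] 0) (𝓝 0)) :
    Tendsto (fun s => (μ (u + s)).real (Arm (N s))) (𝓝[>] 0) (𝓝 (theta μ u)) ∧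
    (ContinuousAt (theta μ) u ↔
      Tendsto (fun s => (μ (u + s)).real (Arm (N s) ∩ {I | (clus Iᶜ).Finite}))
        (𝓝[>] 0) (𝓝 0)) ∧
    ((∀ v, u < v → theta μ v = 0) →
      (ContinuousAt (theta μ) u ↔ theta μ u = 0) ∧
      (theta μ u = 0 ↔
        Tendsto (fun s => (μ (u + s)).real (Arm (N s))) (𝓝[>] 0) (𝓝 0))) := by
  have hB := near hd μ hμ u hu N hN hs
  refine ⟨hB, ?_, fun hz => ⟨?_, ?_⟩⟩
  · rw [right_iff hd μ hμ u hu]
    have he : ∀ᶠ s in 𝓝[>] (0 : ℝ), theta μ (u + s) = (μ (u + s)).real (Arm (N s)) -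
        (μ (u + s)).real (Arm (N s) ∩ {I : Set (Fin d → ℤ) | (clus Iᶜ).Finite}) := by
      filter_upwards [self_mem_nhdsWithin] with s hs0
      have hs0' : (0 : ℝ) < s := hs0
      have := (hμ (u + s) (by linarith)).prob
      exact finite_eq (by omega) μ (u + s) (N s)
    constructor
    · intro h
      have h1 := hB.sub h
      rw [sub_self] at h1
      refine h1.congr' ?_
      filter_upwards [he] with s hs
      linarith
    · intro h
      have h1 := hB.sub h
      rw [sub_zero] at h1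
      refine h1.congr' ?_
      filter_upwards [he] with s hs
      linarith
  · rw [right_iff hd μ hμ u hu]
    have he : ∀ᶠ s in 𝓝[>] (0 : ℝ), theta μ (u + s) = 0 := by
      filter_upwards [self_mem_nhdsWithin] with s hs0
      have hs0' : (0 : ℝ) < s := hs0
      exact hz _ (by linarith)
    have h0 : Tendsto (fun s => theta μ (u + s)) (𝓝[>] 0) (𝓝 0) :=
      (tendsto_const_nhds (x := (0 : ℝ))).congr' (he.mono fun s hs => hs.symm)
    constructor
    · intro h
      exact tendsto_nhds_unique h h0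
    · intro h
      rw [h]
      exact h0
  · constructor
    · intro h
      rw [h] at hB
      exact hB
    · intro h
      exact tendsto_nhds_unique hB h

end Pool.Agent.Results.MP_b849df_pr.NearCritical
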