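import Pool.Agent.PLS.F2

set_option autoImplicit false

/-! # Random interlacements: the percolation function of the vacant set in a coordinate plane is
continuous in all dimensions `d ≥ 3` -/

open Finset Filter Topology MeasureTheory RInt

namespace Pool.Agent.Results.MP_b849df_pr.PlanarSection

/-- The coordinate plane `ℤ² × {0}` of `ℤ^d`. -/
def plane (d : ℕ) : Set (Fin d → ℤ) := {x | ∀ i : Fin d, 2 ≤ i.val → x i = 0}

/-- The percolation function of the vacant set in the plane: the probability that the connected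
component of the origin in `plane ∖ I` is infinite. -/
noncomputable def planarTheta {d : ℕ} (μ : ℝ → Measure (Set (Fin d → ℤ))) (u : ℝ) : ℝ :=
  (μ u).real {I | (clus (plane d \ I)).Infinite}

/-- There is an infinite connected component in `plane ∖ I`. -/
def PlanePercolates {d : ℕ} (I : Set (Fin d → ℤ)) : Prop :=
  ∃ x, x ∈ plane d \ I ∧ {y | Relation.ReflTransGen (VAdj (plane d \ I)) x y}.Infinite

theorem lift_con {d : ℕ} (h2 : 2 ≤ d) (I : Set (Fin d → ℤ)) (x : Fin d → ℤ)
    (hx : x ∈ plane d \ I) (hinf : {y | Relation.ReflTransGen (VAdj (plane d \ I)) x y}.Infinite) :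
    {y | PLS.Con (PLS.D13x.pre d I)ᶜ (PLS.D13x.pr h2 x) y}.Infinite := by
  have hP : ∀ y, Relation.ReflTransGen (VAdj (plane d \ I)) x y → y ∈ plane d \ I := by
    intro y hy
    induction hy with
    | refl => exact hx
    | tail _ h _ => exact h.2.1
  have h1 : (PLS.D13x.pr h2 '' {y | Relation.ReflTransGen (VAdj (plane d \ I)) x y}).Infinite := by
    refine hinf.image fun a ha b hb hab => ?_
    rw [← PLS.D13x.emb_pr h2 a (hP a ha).1, ← PLS.D13x.emb_pr h2 b (hP b hb).1, hab]
  refine h1.mono ?_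
  rintro _ ⟨y, hy, rfl⟩
  refine ⟨?_, ?_⟩
  · show ¬ PLS.emb d (PLS.D13x.pr h2 x) ∈ I
    rw [PLS.D13x.emb_pr h2 x hx.1]
    exact hx.2
  · refine Relation.ReflTransGen.lift (PLS.D13x.pr h2) ?_ _ _ hy
    rintro a b ⟨ha, hb, i, hi⟩
    refine ⟨?_, ?_, (PLS.D13x.nn_emb h2 _ _).2 ⟨i, ?_⟩⟩
    · show ¬ PLS.emb d (PLS.D13x.pr h2 a) ∈ I
      rw [PLS.D13x.emb_pr h2 a ha.1]
      exact ha.2
    · show ¬ PLS.emb d (PLS.D13x.pr h2 b) ∈ I
      rw [PLS.D13x.emb_pr h2 b hb.1]
      exact hb.2
    · rw [PLS.D13x.emb_pr h2 a ha.1, PLS.D13x.emb_pr h2 b hb.1]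
      exact hi

/-- If the percolation function vanishes then almost surely the plane does not percolate. -/
theorem null {d : ℕ} (hd : 3 ≤ d) (μ : ℝ → Measure (Set (Fin d → ℤ)))
    (hμ : ∀ u, 0 < u → IsInterlacement u (μ u)) (u : ℝ) (hu : 0 < u) (h0 : planarTheta μ u = 0) :
    μ u {I | PlanePercolates I} = 0 := by
  have h2 : 2 ≤ d := by omega
  have hp := (hμ u hu).prob
  have hm := PLS.D13x.measurable_pre (d := d)
  have hPF := PLS.pD12 d μ hd hμ
  have hPM := PLS.pF1 _ _ hPF.toPF0 u hu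
  have hshift := hPM.shift
  obtain ⟨E, hE⟩ : ∃ E : Set (Set PLS.Pt), E = {J : Set PLS.Pt | {y | PLS.Con Jᶜ 0 y}.Infinite} :=
    ⟨_, rfl⟩
  have hEm : MeasurableSet E := hE ▸ PLS.D13x.meas_inf
  have hE0 : (μ u).map (fun I => {x : PLS.Pt | PLS.emb d x ∈ I}) E = 0 := by
    have h1 := PLS.D13 d μ u hd
    have h3 : (((μ u).map (fun I => {x : PLS.Pt | PLS.emb d x ∈ I})).real E) = 0 := by
      rw [hE]
      exact h1.symm.trans h0
    have := hPM.prob
    exact (measureReal_eq_zero_iff (measure_ne_top _ _)).1 h3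
  have hz : ∀ z : PLS.Pt, μ u (PLS.D13x.pre d ⁻¹' ((fun J : Set PLS.Pt => {x | x + z ∈ J}) ⁻¹' E)) =
      0 := by
    intro z
    have hmz : Measurable (fun J : Set PLS.Pt => {x : PLS.Pt | x + z ∈ J}) := by
      rw [measurable_set_iff]
      intro a
      exact measurable_set_mem (a + z)
    have h4 := hshift z
    rw [← h4, Measure.map_apply hmz hEm] at hE0
    have h5 : (μ u).map (PLS.D13x.pre d) ((fun J : Set PLS.Pt => {x | x + z ∈ J}) ⁻¹' E) = 0 := hE0
    rwa [Measure.map_apply hm (hmz hEm)] at h5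
  have hsub : {I : Set (Fin d → ℤ) | PlanePercolates I} ⊆
      ⋃ z : PLS.Pt, PLS.D13x.pre d ⁻¹' ((fun J : Set PLS.Pt => {x | x + z ∈ J}) ⁻¹' E) := by
    rintro I ⟨x, hx, hinf⟩
    refine Set.mem_iUnion.2 ⟨PLS.D13x.pr h2 x, ?_⟩
    rw [hE]
    exact PLS.P9x.inf_shift (lift_con h2 I x hx hinf)
  exact measure_mono_null hsub (measure_iUnion_null hz)

/-- **Main theorem.** Let `μ u`, `u > 0`, be the laws of random interlacements on `ℤ^d`, `d ≥ 3`.
The percolation function of the vacant set in the plane `ℤ² × {0}` is continuous on `(0, ∞)`. In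
particular the plane does not percolate at its critical level: if the percolation function vanishes
above `u` then almost surely there is no infinite connected component in the plane at `u`. -/
theorem result (d : ℕ) (hd : 3 ≤ d) (μ : ℝ → Measure (Set (Fin d → ℤ)))
    (hμ : ∀ u, 0 < u → IsInterlacement u (μ u)) :
    ContinuousOn (planarTheta μ) (Set.Ioi 0) ∧
    ∀ u : ℝ, 0 < u → (∀ v, u < v → planarTheta μ v = 0) →
      planarTheta μ u = 0 ∧ μ u {I | PlanePercolates I} = 0 := by
  have hc : ContinuousOn (planarTheta μ) (Set.Ioi 0) := PLS.F2 d μ hd hμ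
  refine ⟨hc, fun u hu hv => ?_⟩
  have h0 : planarTheta μ u = 0 := by
    have h1 : ContinuousAt (planarTheta μ) u := hc.continuousAt (Ioi_mem_nhds hu)
    have h2 : Tendsto (planarTheta μ) (𝓝[>] u) (𝓝 (planarTheta μ u)) :=
      h1.tendsto.mono_left nhdsWithin_le_nhds
    have h3 : Tendsto (planarTheta μ) (𝓝[>] u) (𝓝 0) := by
      refine tendsto_const_nhds.congr' ?_
      filter_upwards [self_mem_nhdsWithin] with v hv'
      exact (hv v hv').symm
    exact tendsto_nhds_unique h2 h3
  exact ⟨h0, null hd μ hμ u hu h0⟩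

end Pool.Agent.Results.MP_b849df_pr.PlanarSection
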